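import Pool.Agent.E8helper19.PM.Stm

/-!
PM7 (helper19's project on the probe method): Rellich's theorem in `Ω ∖ D̄`.
-/

set_option autoImplicit false

open MeasureTheory Filter Topology Set
open scoped ContDiff ENNReal Real InnerProductSpace

namespace Pool.Agent.E8helper10.PM

open Pool.Agent.E8helper19.PM

theorem cont_pd {f : E → ℂ} (hf : ContDiff ℝ ∞ f) (j : Fin 3) : Continuous (pd j f) := by
  unfold pd
  exact (hf.continuous_fderiv (by simp)).clm_apply continuous_const

theorem cont_gr {f : E → ℂ} (hf : ContDiff ℝ ∞ f) : Continuous (gr f) := by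
  unfold gr
  exact (PiLp.continuous_toLp 2 _).comp (continuous_pi fun j => cont_pd hf j)

theorem gr_zero {f : E → ℂ} {y : E} (h : fderiv ℝ f y = 0) : gr f y = 0 := by
  unfold gr pd
  rw [h]
  ext j
  simp

theorem gr_sub {f g : E → ℂ} {y : E} (hf : DifferentiableAt ℝ f y) (hg : DifferentiableAt ℝ g y) :
    gr (fun y => f y - g y) y = gr f y - gr g y := by
  unfold gr pd
  ext j
  have : fderiv ℝ (fun y => f y - g y) y = fderiv ℝ f y - fderiv ℝ g y := fderiv_fun_sub hf hg
  simp [this]

theorem gr_mul {f g : E → ℂ} {y : E} (hf : DifferentiableAt ℝ f y) (hg : DifferentiableAt ℝ g y) :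
    gr (fun y => f y * g y) y = f y • gr g y + g y • gr f y := by
  unfold gr pd
  ext j
  have : fderiv ℝ (fun y => f y * g y) y = f y • fderiv ℝ g y + g y • fderiv ℝ f y :=
    fderiv_fun_mul hf hg
  simp [this]

theorem diff_of {f : E → ℂ} (hf : ContDiff ℝ ∞ f) (y : E) : DifferentiableAt ℝ f y :=
  (hf.differentiable (by simp)) y

/-- the density of `H1` -/
noncomputable def dens (f : E → ℂ) (y : E) : ℝ := ‖f y‖ ^ 2 + ‖gr f y‖ ^ 2

theorem H1_eq (U : Set E) (f : E → ℂ) : H1 U f = ∫ y in U, dens f y := rfl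

theorem dens_nonneg (f : E → ℂ) (y : E) : 0 ≤ dens f y := by unfold dens; positivity

theorem dens_cont {f : E → ℂ} (hf : ContDiff ℝ ∞ f) : Continuous (dens f) := by
  have h1 := cont_gr hf
  have h2 := hf.continuous
  unfold dens
  fun_prop

theorem dens_zero {f : E → ℂ} {y : E} (h : y ∉ tsupport f) : dens f y = 0 := by
  unfold dens
  rw [gr_zero (fderiv_of_notMem_tsupport ℝ h), image_eq_zero_of_notMem_tsupport h]
  simp

theorem dens_int {f : E → ℂ} (hf : ContDiff ℝ ∞ f) (hc : HasCompactSupport f) :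
    Integrable (dens f) := by
  apply (dens_cont hf).integrable_of_hasCompactSupport
  refine HasCompactSupport.intro hc.isCompact (fun y hy => dens_zero hy)

theorem sq_int {f : E → ℂ} (hf : ContDiff ℝ ∞ f) (hc : HasCompactSupport f) :
    Integrable (fun y => ‖f y‖ ^ 2) := by
  have hcont : Continuous (fun y => ‖f y‖ ^ 2) := hf.continuous.norm.pow 2
  apply hcont.integrable_of_hasCompactSupport
  refine HasCompactSupport.intro hc.isCompact (fun y hy => ?_)
  simp only [image_eq_zero_of_notMem_tsupport hy]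
  simp

theorem Tst.sub {Ω : Set E} {f g : E → ℂ} (hf : Tst Ω f) (hg : Tst Ω g) :
    Tst Ω (fun y => f y - g y) where
  smooth := hf.smooth.sub hg.smooth
  cpt := hf.cpt.sub hg.cpt
  supp := (tsupport_sub f g).trans (union_subset hf.supp hg.supp)

theorem dens_sub {f g : E → ℂ} (hf : ContDiff ℝ ∞ f) (hg : ContDiff ℝ ∞ g) (y : E) :
    dens (fun y => f y - g y) y ≤ 2 * dens f y + 2 * dens g y := by
  unfold dens
  rw [gr_sub (diff_of hf y) (diff_of hg y)]
  have h1 : ‖f y - g y‖ ^ 2 ≤ 2 * ‖f y‖ ^ 2 + 2 * ‖g y‖ ^ 2 := by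
    have := norm_sub_le (f y) (g y)
    have h0 := norm_nonneg (f y - g y)
    nlinarith [sq_nonneg (‖f y‖ - ‖g y‖), norm_nonneg (f y), norm_nonneg (g y)]
  have h2 : ‖gr f y - gr g y‖ ^ 2 ≤ 2 * ‖gr f y‖ ^ 2 + 2 * ‖gr g y‖ ^ 2 := by
    have := norm_sub_le (gr f y) (gr g y)
    have h0 := norm_nonneg (gr f y - gr g y)
    nlinarith [sq_nonneg (‖gr f y‖ - ‖gr g y‖), norm_nonneg (gr f y), norm_nonneg (gr g y)]
  linarith

theorem H1_sub {Ω : Set E} {f g : E → ℂ} (hf : Tst Ω f) (hg : Tst Ω g) (U : Set E) :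
    H1 U (fun y => f y - g y) ≤ 2 * H1 U f + 2 * H1 U g := by
  rw [H1_eq, H1_eq, H1_eq, ← integral_const_mul, ← integral_const_mul, ← integral_add]
  · apply integral_mono
    · exact (dens_int (Tst.sub hf hg).smooth (Tst.sub hf hg).cpt).integrableOn
    · exact (((dens_int hf.smooth hf.cpt).const_mul 2).add
        ((dens_int hg.smooth hg.cpt).const_mul 2)).integrableOn
    · intro y
      exact dens_sub hf.smooth hg.smooth y
  · exact ((dens_int hf.smooth hf.cpt).const_mul 2).integrableOn
  · exact ((dens_int hg.smooth hg.cpt).const_mul 2).integrableOn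

theorem H1_nonneg (U : Set E) (f : E → ℂ) : 0 ≤ H1 U f := by
  rw [H1_eq]
  exact integral_nonneg fun y => dens_nonneg f y

theorem t_RO (h : S_NC) (h2 : S_RB) : S_RO := by
  intro Ω D M f hΩ hb hD hDΩ hf hM
  have hM0 : 0 ≤ M := (H1_nonneg _ (f 0)).trans (hM 0)
  -- the weight
  obtain ⟨X, hXs, hX, hX01⟩ := IsOpen.exists_contDiff_support_eq (n := ⊤)
    (s := (closure D)ᶜ) isClosed_closure.isOpen_compl
  have hXX : ContDiff ℝ ∞ X := hX
  set Xc : E → ℂ := fun y => (X y : ℂ) with hXc
  have hXcs : ContDiff ℝ ∞ Xc := Complex.ofRealCLM.contDiff.comp hXX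
  have hX0 : ∀ y, 0 ≤ X y := fun y => (hX01 (mem_range_self y)).1
  have hX1 : ∀ y, X y ≤ 1 := fun y => (hX01 (mem_range_self y)).2
  have hXz : ∀ y ∈ closure D, X y = 0 := by
    intro y hy
    by_contra hne
    have : y ∈ X.support := hne
    rw [hXs] at this
    exact this hy
  have hXp : ∀ y, y ∉ closure D → 0 < X y := by
    intro y hy
    have : y ∈ X.support := by rw [hXs]; exact hy
    exact lt_of_le_of_ne (hX0 y) (Ne.symm this)
  have hXg : ∀ y ∈ closure D, gr Xc y = 0 := by
    intro y hy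
    apply gr_zero
    have h1 : fderiv ℝ X y = 0 := by
      apply IsLocalMin.fderiv_eq_zero
      filter_upwards with z
      rw [hXz y hy]; exact hX0 z
    have h2 : fderiv ℝ Xc y = Complex.ofRealCLM.comp (fderiv ℝ X y) :=
      (Complex.ofRealCLM.hasFDerivAt.comp y
        ((hXX.differentiable (by simp)) y).hasFDerivAt).fderiv
    rw [h2, h1]
    simp
  -- bound of the gradient
  have hcl : IsCompact (closure Ω) := hb.isCompact_closure
  obtain ⟨B, hB⟩ := hcl.exists_bound_of_continuousOn (cont_gr hXcs).continuousOn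
  -- the products
  set g : ℕ → E → ℂ := fun n y => Xc y * f n y with hg
  have hgT : ∀ n, Tst Ω (g n) := by
    intro n
    refine ⟨hXcs.mul (hf n).smooth, (hf n).cpt.mul_left, ?_⟩
    exact (tsupport_mul_subset_right).trans (hf n).supp
  have hB0 : ∀ y ∈ closure Ω, 0 ≤ B := fun y hy => (norm_nonneg _).trans (hB y hy)
  have hdens : ∀ n y, dens (g n) y ≤
      indicator (Ω \ closure D) (fun y => (2 + 2 * B ^ 2) * dens (f n) y) y := by
    intro n y
    by_cases hy : y ∈ Ω
    · have hgy : gr (g n) y = Xc y • gr (f n) y + f n y • gr Xc y :=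
        gr_mul (diff_of hXcs y) (diff_of (hf n).smooth y)
      by_cases hyD : y ∈ closure D
      · rw [indicator_of_notMem (fun h => h.2 hyD)]
        unfold dens
        rw [hgy, hXg y hyD]
        have : Xc y = 0 := by rw [hXc]; simp [hXz y hyD]
        simp [hg, this]
      · rw [indicator_of_mem (show y ∈ Ω \ closure D from ⟨hy, hyD⟩)]
        have hBy := hB y (subset_closure hy)
        have hB1 := hB0 y (subset_closure hy)
        have hXn : ‖Xc y‖ ≤ 1 := by
          rw [hXc]
          simp only [Complex.norm_real, Real.norm_eq_abs, abs_of_nonneg (hX0 y)]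
          exact hX1 y
        unfold dens
        rw [hgy]
        have n1 : ‖g n y‖ ≤ ‖f n y‖ := by
          rw [hg]
          simp only [norm_mul]
          exact mul_le_of_le_one_left (norm_nonneg _) hXn
        have n2 : ‖Xc y • gr (f n) y + f n y • gr Xc y‖ ≤ ‖gr (f n) y‖ + ‖f n y‖ * B := by
          refine (norm_add_le _ _).trans (add_le_add ?_ ?_)
          · rw [norm_smul]
            exact mul_le_of_le_one_left (norm_nonneg _) hXn
          · rw [norm_smul]
            exact mul_le_mul_of_nonneg_left hBy (norm_nonneg _)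
        have n3 : ‖g n y‖ ^ 2 ≤ ‖f n y‖ ^ 2 := pow_le_pow_left₀ (norm_nonneg _) n1 2
        have n4 : ‖Xc y • gr (f n) y + f n y • gr Xc y‖ ^ 2 ≤
            2 * ‖gr (f n) y‖ ^ 2 + 2 * (‖f n y‖ * B) ^ 2 := by
          refine (pow_le_pow_left₀ (norm_nonneg _) n2 2).trans ?_
          nlinarith [sq_nonneg (‖gr (f n) y‖ - ‖f n y‖ * B)]
        have n5 : (‖f n y‖ * B) ^ 2 = B ^ 2 * ‖f n y‖ ^ 2 := by ring
        nlinarith [sq_nonneg (‖f n y‖), sq_nonneg ‖gr (f n) y‖, sq_nonneg B,
          mul_nonneg (sq_nonneg B) (sq_nonneg ‖gr (f n) y‖)]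
    · rw [indicator_of_notMem (fun h => hy h.1)]
      exact (dens_zero (fun h => hy ((hgT n).supp h))).le
  have hmeas : MeasurableSet (Ω \ closure D) := hΩ.measurableSet.diff isClosed_closure.measurableSet
  have hgM : ∀ n, H1 univ (g n) ≤ (2 + 2 * B ^ 2) * M := by
    intro n
    have h1 : H1 univ (g n) ≤ (2 + 2 * B ^ 2) * H1 (Ω \ closure D) (f n) := by
      rw [H1_eq, H1_eq, ← integral_const_mul, ← integral_indicator hmeas, setIntegral_univ]
      apply integral_mono (dens_int (hgT n).smooth (hgT n).cpt)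
      · exact ((dens_int (hf n).smooth (hf n).cpt).const_mul _).indicator hmeas
      · exact hdens n
    exact h1.trans (mul_le_mul_of_nonneg_left (hM n) (by positivity))
  obtain ⟨τ, hτ, hC⟩ := h2 Ω _ g hb hgT hgM
  refine ⟨τ, hτ, fun ε hε => ?_⟩
  obtain ⟨U, hU, hDU, hUf⟩ := (h Ω D (ε / (8 * M + 8)) hΩ hb hD hDΩ (by positivity)).2
  -- lower bound of the weight
  have hcomp : IsCompact (closure Ω \ U) := hcl.diff hU
  obtain ⟨c, hc, hcX⟩ : ∃ c : ℝ, 0 < c ∧ ∀ y ∈ closure Ω \ U, c ≤ X y := by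
    rcases (closure Ω \ U).eq_empty_or_nonempty with he | hne
    · exact ⟨1, one_pos, fun y hy => by rw [he] at hy; exact absurd hy (notMem_empty y)⟩
    · obtain ⟨y0, hy0, hmin⟩ := hcomp.exists_isMinOn hne hXX.continuous.continuousOn
      exact ⟨X y0, hXp y0 (fun h => hy0.2 (hDU h)), fun y hy => hmin hy⟩
  obtain ⟨N, hN⟩ := hC (c ^ 2 * (ε / 2)) (by positivity)
  refine ⟨N, fun m hm n hn => ?_⟩
  have hT := Tst.sub (hf (τ m)) (hf (τ n))
  set F : E → ℂ := fun y => f (τ m) y - f (τ n) y with hF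
  have hint := sq_int hT.smooth hT.cpt
  have hsplit : Ω \ closure D ⊆ (U \ closure D) ∪ (Ω \ U) := by
    intro y hy
    by_cases hyU : y ∈ U
    · exact Or.inl ⟨hyU, hy.2⟩
    · exact Or.inr ⟨hy.1, hyU⟩
  have hmU : MeasurableSet (Ω \ U) := hΩ.measurableSet.diff hU.measurableSet
  have s1 : ∫ y in Ω \ closure D, ‖F y‖ ^ 2 ≤
      (∫ y in U \ closure D, ‖F y‖ ^ 2) + ∫ y in Ω \ U, ‖F y‖ ^ 2 := by
    refine (setIntegral_mono_set hint.integrableOn
      (Eventually.of_forall fun y => by positivity)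
      (LE.le.eventuallyLE hsplit)).trans ?_
    have hd : Disjoint (U \ closure D) (Ω \ U) := by
      rw [disjoint_left]
      intro y h1 h2
      exact h2.2 h1.1
    rw [setIntegral_union hd hmU hint.integrableOn hint.integrableOn]
  have s2 : ∫ y in U \ closure D, ‖F y‖ ^ 2 ≤ ε / 2 := by
    refine (hUf F hT).trans ?_
    have h3 := H1_sub (hf (τ m)) (hf (τ n)) (Ω \ closure D)
    have h4 : H1 (Ω \ closure D) F ≤ 4 * M := by
      have := hM (τ m)
      have := hM (τ n)
      linarith
    calc ε / (8 * M + 8) * H1 (Ω \ closure D) F ≤ ε / (8 * M + 8) * (4 * M) :=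
          mul_le_mul_of_nonneg_left h4 (by positivity)
      _ = ε * (4 * M) / (8 * M + 8) := by ring
      _ ≤ ε / 2 := by
          rw [div_le_div_iff₀ (by positivity) (by positivity)]
          nlinarith
  have s3 : ∫ y in Ω \ U, ‖F y‖ ^ 2 ≤ ε / 2 := by
    have h3 := hN m hm n hn
    have h4 : c ^ 2 * ∫ y in Ω \ U, ‖F y‖ ^ 2 ≤ c ^ 2 * (ε / 2) := by
      refine le_trans ?_ h3
      rw [← integral_const_mul, ← integral_indicator hmU]
      apply integral_mono
      · exact (hint.const_mul _).indicator hmU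
      · have hT' := Tst.sub (hgT (τ m)) (hgT (τ n))
        exact sq_int hT'.smooth hT'.cpt
      · intro y
        by_cases hy : y ∈ Ω \ U
        · simp only [indicator_of_mem hy]
          have h5 : g (τ m) y - g (τ n) y = Xc y * F y := by
            simp only [hg, hF]; ring
          rw [h5, norm_mul, mul_pow]
          apply mul_le_mul_of_nonneg_right _ (by positivity)
          have h6 : ‖Xc y‖ = X y := by
            rw [hXc]
            simp only [Complex.norm_real, Real.norm_eq_abs, abs_of_nonneg (hX0 y)]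
          rw [h6]
          exact pow_le_pow_left₀ hc.le (hcX y ⟨subset_closure hy.1, hy.2⟩) 2
        · simp only [indicator_of_notMem hy]
          positivity
    exact le_of_mul_le_mul_left h4 (by positivity)
  linarith

end Pool.Agent.E8helper10.PM
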